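import Pool.Agent.Run7.h546.NL.Pair

/-!
MP_e23cd6_ag, Q1: abundance (`κ = ν`) for klt pairs, and for log canonical pairs, on the projective
models of the projective and quasi-projective varieties given by nested sums of high powers of
monomials, for instance

`∑ i, (∑ j, x_{ij} ^ e_1) ^ e_2 = 0`, `x_{ij} ≠ 0` for some of the `(i, j)`,

and components of arbitrary intersections of such hypersurfaces. The varieties given by forms with
few monomials and large exponents are in the starting result `MP_66b48b_ag.SparsePairs`; the number of
the monomials of the forms here grows with the exponents, so they are not forms with few monomials.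

`NestedIn IsMono s M H G` (`Pool/Agent/TH710/ND/Dich.lean`): the form `G` is a sum of at most `s` terms
`c g ^ e`, `M ≤ e`, where the `g` are monomials or sums of at most `s` such terms of the next level, and
so on, with at most `H + 1` levels; the exponents and the numbers of summands are the same for all sums
of one level. `SubVarU`, `IsComponentU`: `K` is the function field, `z` the generic point, and `w` the
dimension of an irreducible component `V` of `{F = 0, x_j ≠ 0 for j in U}`. `OffU U z P`: the centre of
the prime divisor `P` lies on one of the hyperplanes `x_j = 0`, `j` in `U` (never, if `U` is empty).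

`NormalModel y` (`Pool/Agent/Y172/Defs.lean`): `y` is the generic point, in homogeneous coordinates,
of a normal projective variety `X` with function field `K`, so `X` is any normal projective variety
birational to `V`. `Effective y Δ`, `LogCanonical y w Δ`: `Δ ≥ 0` is a `ℚ`-divisor on `X` such that
the pair `(X, Δ)` is log canonical. `LogDisc y w Δ Q α` (`Pool/Agent/Y191/Disc.lean`): the log
discrepancy of `(X, Δ)` along the prime divisor `Q` over `X` is at least `α`. `kodairaDim y w Δ` is
the Kodaira dimension of `K_X + Δ`, and `numericalDim y w Δ A` is the numerical dimension with respect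
to the divisor `A`: the upper limit of `log h⁰(m (K_X + Δ) + A) / log m`; if it is `-∞` for all
`A ≥ 0`, then `K_X + Δ` is not pseudo-effective.

`Contracts U ℂ z b`, `Acts U ℂ z b` (`Pool/Agent/W602/GT/KStm.lean`): `t ↦ diag (t ^ b_j)`, `b ≥ 0`,
defines a map from the product of the affine line and an open part of `V` to `V`, so `V` is covered by
affine lines; this one-parameter group acts on `V`. `OverCoord z Q`, `Tangent z b Q`
(`Pool/Agent/N133/PC8.lean`): the centre of `Q` lies on a coordinate hyperplane of the projective
space of `V`; `Q` is invariant under the one-parameter group.

The proof. The sums of one level vanish, and two of them have a quotient without zeros and poles off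
`U`, only if this follows from linear relations with few terms between the sums of the next level (a
family of circuits). New is the treatment of the last step for monomials (`Pool/Agent/Run7/h546/NL`):
the exponents of the quotients of monomials which are linked in this way span a space `R`, and
diagonal matrices with weights orthogonal to `R` act on `V` (induction over the levels); finitely many
of the families of circuits span `R`, and they are used together to construct the sections; where the
terms of all of these families have the same orders, the orders of the coordinates are weights of a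
torus action, and if they are not equal then `V` is covered by affine lines. The rest of the proof is
that of `SparsePairs`.
-/

set_option autoImplicit false

namespace Pool.Agent.Results.MP_e23cd6_ag.NestedLcPairs

open FF Pool.Agent.W602.GT Pool.Agent.N133.PC
open Pool.Agent.TH710.ND (NestedIn IsMono)
open Pool.Agent.Y172 (NormalModel IsPrimeDivisor Effective Integral LogCanonical kodairaDim
  numericalDim)
open Pool.Agent.Y191 (LogDisc)

/-- Let `V` be an irreducible component, of dimension `w`, of the open part `x_j ≠ 0`, `j` in `U`, of a
projective variety in `P^n` given by (any number of) nested sums of powers of monomials with at most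
`H + 1` levels and at most `s` summands at each of them, the exponents being at least
`(2 n + 2) (H + 1) (2 s + 1) ^ 5`. Let `(X, Δ)` be any projective log canonical pair, `X` birational to
`V`, such that the prime divisors of `X` over the hyperplanes `x_j = 0`, `j` in `U`, have coefficients
(at least) `1`, the other prime divisors over `X` have positive log discrepancies (so `(X, Δ)` is any
klt pair if `U` is empty), and each prime divisor over `X` with negative discrepancy lies over a
coordinate hyperplane or is invariant under the one-parameter groups of diagonal matrices which act
on `V` (for instance, `(X, Δ)` is invariant under the diagonal torus which acts on `V`). Then either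
`V` is covered by affine lines `t ↦ (t ^ b_j x_j)`, and `K_X + Δ` is not pseudo-effective,
`κ = ν = -∞`; or this is not so, and `κ(K_X + Δ) = ν(K_X + Δ) = w - p`, where `p` independent
one-parameter groups of diagonal matrices act on `V`. So `κ = ν` in all cases. -/
theorem result {n : ℕ} {ι : Type} {U : Set (Fin (n + 1))} {F : ι → MvPolynomial (Fin (n + 1)) ℂ}
    {s H M : ℕ} (hF : ∀ e, IsForm (F e) ∧ NestedIn IsMono s M H (F e))
    (hM : (2 * n + 2) * ((H + 1) * (2 * s + 1) ^ 5) ≤ M) {K : Type} [Field K] [Algebra ℂ K] {w : ℕ}
    {z : Fin (n + 1) → K} (hz : SubVarU U F K w z) (hcomp : IsComponentU U F z) {N : ℕ}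
    {y : Fin (N + 1) → K} (hy : NormalModel y) (Δ : Place ℂ K → ℚ) (hΔ : Effective y Δ)
    (hLC : LogCanonical y w Δ)
    (hone : ∀ P, IsPrimeDivisor y P → OffU U z P → 1 ≤ Δ P)
    (hklt : ∀ Q, Divisorial w Q → ¬ OffU U z Q → ∃ α > 0, LogDisc y w Δ Q α)
    (hcan : ∀ Q, Divisorial w Q → LogDisc y w Δ Q 1 ∨ OverCoord z Q ∨
      ∀ b, Acts U ℂ z b → Tangent z b Q) :
    ((∃ b, Contracts U ℂ z b) ∧ kodairaDim y w Δ = ⊥ ∧
        ∀ A, Effective y A → numericalDim y w Δ A = ⊥) ∨
      ((¬ ∃ b, Contracts U ℂ z b) ∧
        ∃ (h p : ℕ) (b : Fin p → Fin (n + 1) → ℤ), h + p = w ∧ (∀ l, Acts U ℂ z (b l)) ∧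
        (∀ c : Fin p → ℤ, (∀ j j', z j ≠ 0 → z j' ≠ 0 →
          ∑ l, c l * b l j = ∑ l, c l * b l j') → c = 0) ∧
        kodairaDim y w Δ = (h : WithBot ℕ) ∧
        ∀ A, Effective y A → Integral y A → numericalDim y w Δ A = (h : EReal)) :=
  Pool.Agent.Run7.h546.NL.nested_pair_lc hF hM hz hcomp hy hΔ hLC hone hklt hcan

end Pool.Agent.Results.MP_e23cd6_ag.NestedLcPairs
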