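import Pool.Agent.Run7.h528.NR.Final
import Pool.Agent.Run7.h528.NN.Log
import Pool.Agent.N110.RK.Stat
import Pool.Agent.N110.NV.Fin
import Pool.Agent.R887.NefP
import Pool.Agent.R887.Exc

/-!
Nilpotent groups of birational self-maps, isomorphisms in codimension one, which preserve `K_X + Δ`:
the structure of the group modulo the elements of zero entropy, a bound for the numerical dimension,
and abundance.
-/

set_option autoImplicit false

open FF Pool.Agent.W602.GT Pool.Agent.Y172 Pool.Agent.R887 Pool.Agent.N110 Run7.h528.NR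
open Run7.h528.NN

/-- Let `X` be a normal projective variety of dimension `n ≥ 1`, with generic point `y`, and `Δ ≥ 0`
a `ℚ`-divisor on `X` (for instance, let `(X, Δ)` be klt). By the theorem of Néron and Severi the group
of the divisors on `X` modulo numerical equivalence is finitely generated; this is the hypothesis
`hN`. Let `G` be a nilpotent group of birational self-maps of `X` (not necessarily abelian or
finitely generated) which are isomorphisms in codimension one and preserve `Δ`, given by a group of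
automorphisms of the function field. Then:

* The elements of zero entropy in `G`, that is, those with first dynamical degree at most `1`, form a
  normal subgroup `N`, and `G / N` is a free abelian group of finite rank `ρ`, where `ρ ≤ n - 1`:
  there is a surjective homomorphism `Φ` from `G` onto `ℤ ^ ρ` with kernel `N`.
* If `ρ ≥ 1` (that is, if some element has positive entropy) then the numerical dimension and the
  Kodaira dimension of `K_X + Δ` are at most `n - 1 - ρ`, and they are equal if the Kodaira dimension is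
  at least `n - 1 - ρ`.
* If `ρ = n - 1 ≥ 1`, then `K_X + Δ` is pseudo-effective if and only if it is numerically equivalent to
  an effective `ℚ`-divisor `D`; then `D` is unique, and `D = 0` if `K_X + Δ` is nef, so `K_X + Δ` is
  numerically trivial in this case. Nothing is assumed about the irregularity of `X` here.
* If `ρ = n - 1 ≥ 1` and the irregularity of `X` is zero, then `K_X + Δ` is pseudo-effective if and only
  if it is `ℚ`-effective, and then the Kodaira dimension and the numerical dimension are zero; if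
  `K_X + Δ` is nef then `m (K_X + Δ)` is trivial for some `m ≥ 1`: it has a section `ω ≠ 0` without
  zeros.

For commuting maps all of which have positive entropy the last two parts are the theorem
`PositiveEntropyRank` of the starting files (`Results/MP_5ff3c6_ag`). -/
theorem Pool.Agent.Results.MP_e23cd6_ag.NilpotentEntropy.result
    {K : Type} [Field K] [Algebra ℂ K] {N n : ℕ} {y : Fin (N + 1) → K} (hy : NormalModel y)
    (hn : Algebra.trdeg ℂ K = n) (hn0 : 0 < n) (hN : NeronSeveri y) {Δ : Place ℂ K → ℚ}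
    (hΔ : Effective y Δ) (G : Subgroup (K ≃ₐ[ℂ] K)) (hnil : Group.IsNilpotent G)
    (hiso : ∀ g ∈ G, PseudoAut g y)
    (hφΔ : ∀ g ∈ G, ∀ P Q : Place ℂ K, IsPrimeDivisor y Q → (∀ x, P.ord x = Q.ord (g x)) →
      Δ P = Δ Q) :
    ∃ (ρ : ℕ) (Φ : G →* Multiplicative (Fin ρ → ℤ)), Function.Surjective Φ ∧
      (∀ g : G, Φ g = 1 ↔ dynDegree (g : K ≃ₐ[ℂ] K) y n 1 ≤ 1) ∧ ρ < n ∧
      (0 < ρ → NumDimLt y n Δ (n - ρ) ∧ ¬ KappaGe y n Δ (n - ρ) ∧
        (KappaGe y n Δ (n - ρ - 1) → Abundant y n Δ) ∧
        (ρ + 1 = n → LogPsef y n Δ → ∃ D : Place ℂ K → ℚ, Effective y D ∧ NumEq y n Δ D ∧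
          (∀ D', Effective y D' → NumEq y n Δ D' → ∀ P, IsPrimeDivisor y P → D' P = D P) ∧
          (LogNef y n Δ → ∀ P, IsPrimeDivisor y P → D P = 0)) ∧
        (ρ + 1 = n → IrregularityZero y → LogPsef y n Δ →
          kodairaDim y n Δ = ((0 : ℕ) : WithBot ℕ) ∧
          (∀ A, Effective y A → Integral y A → numericalDim y n Δ A = ((0 : ℕ) : EReal)) ∧
          ∃ m : ℕ, 1 ≤ m ∧ ∃ ω : (Fin n → Derivation ℂ K K) → K, IsSection y n m (m • Δ) ω ∧
            ω ≠ 0 ∧ (LogNef y n Δ → ∀ P, IsPrimeDivisor y P → OrdEq P ω (-(m * Δ P))))) := by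
  obtain ⟨ρ, Φ, h1, h2, h3, h4⟩ := struct_main hy hn hn0 hN G hnil hiso
  refine ⟨ρ, Φ, h1, h2, h3, fun hρ => ?_⟩
  have h5 := h4 Δ hΔ.2 (fun g hg => PA.pullLe_pseudoAut (hiso g hg) fun P Q hQ hP =>
    (hφΔ g hg P Q hQ hP).le) hρ
  refine ⟨h5, ?_, fun h => ⟨n - ρ - 1, h, ?_⟩, fun h6 hpsef => ?_, fun h6 hq hpsef => ?_⟩
  · rintro ⟨m, hm, ω, E, hω, h0, hind⟩
    exact kappa_lt hy hn (Nat.sub_le _ _) h5 hm hω h0 hind
  · rwa [show n - ρ - 1 + 1 = n - ρ by omega]
  · rw [show n - ρ = 1 by omega] at h5
    exact num_eff hy hn hn0 hN hΔ.2 hpsef h5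
  · rw [show n - ρ = 1 by omega] at h5
    obtain ⟨m, hm, ω, hω0, hω⟩ := NV.nonvanishing hy hn hn0 hΔ.2 hpsef h5 hq
    obtain ⟨h7, h8⟩ := abundance_zero hy hn hn0 hΔ h5 hm hω hω0
    exact ⟨h7, h8, m, hm, ω, hω, hω0, fun hnef P hP =>
      nef_trivialP hy hn hn0 h5 hnef hm hω hω0 P hP⟩
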