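import Pool.Agent.Run7.h612.AB.Main3

/-!
**The plurigenera of the coverings of a pair, and abundance.** Let `X` be a normal projective
variety of dimension `n ≥ 1` over the complex numbers, `Δ` an effective `ℚ`-divisor, and
`π : X' → X` the normalization of `X` in any finite extension of its function field, with
`K_X' + Δ' = π^* (K_X + Δ)`.

1. The plurigenera `P_m (X', Δ')` are finite, and zero if the Kodaira dimension of `K_X + Δ` is
   `-∞`.
2. Let `k ≥ 0` be the Kodaira dimension of `K_X + Δ` and `X ⇢ B` its Iitaka fibration. Let `δ` be the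
   degree of `X` and `μ` the positive intersection product `⟨K_X + Δ⟩ · H ^ (n - 1)`. Then
   `P_m (X', Δ') ≤ deg (B' / B) (k + δ max (1, m μ) ^ k)` for all coverings `X'` and all `m ≥ 1`, where
   `X' ⇢ B' → B` is the Stein factorization.
3. The Kodaira dimension of `K_X + Δ` is at least `ν ≥ 1` if and only if for every fibration `X ⇢ B`
   with `dim B < ν` the numbers `P_m (X', Δ') / (deg (B' / B) m ^ dim B)` are unbounded, for all
   coverings `X'` and `m ≥ 1`; here one can take all the coverings, or only those which are étale in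
   codimension one. In particular this implies that `K_X + Δ` is abundant, if its numerical dimension
   is at most `ν`.
-/

set_option autoImplicit false
set_option linter.overlappingInstances false

open FF Pool.Agent.W602.GT Pool.Agent.Y172 Pool.Agent.R887 Pool.Agent.N110 Run7.h612.AB

namespace Pool.Agent.Results.MP_e23cd6_ag.PlurigeneraOfCoverings

theorem result {K : Type} [Field K] [Algebra ℂ K] {N : ℕ} {y : Fin (N + 1) → K}
    (hy : NormalModel y) {n : ℕ} (hn : Algebra.trdeg ℂ K = n) (hn0 : 0 < n)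
    {Δ : Place ℂ K → ℚ} (hΔ : Effective y Δ) :
    FinitePlurigenera y n Δ ∧
    (∀ k : ℕ, KappaGe y n Δ k → ¬ KappaGe y n Δ (k + 1) →
      ∃ E : IntermediateField ℂ K, IsIitaka y n Δ k E ∧
        ∀ (δ : ℕ) (μ : ℝ), DegreeLe y n δ → 0 ≤ μ → PositiveProductLe y n Δ 1 μ →
          CoverPlurigeneraLe y n Δ E k δ μ) ∧
    (∀ ν : ℕ, 1 ≤ ν → (CoverGrowth y n Δ ν → KappaGe y n Δ ν) ∧
      (KappaGe y n Δ ν → EtaleCoverGrowth y n Δ ν) ∧
      (CoverGrowth y n Δ ν → NumDimLt y n Δ (ν + 1) → Abundant y n Δ)) :=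
  ⟨fun L _ _ _ _ _ _ hm => main_finite hy hn hΔ L hm,
    fun _ hk hk' => main_bound hy hn hn0 hΔ hk hk',
    fun ν hν => ⟨kappa_of_growth hy hn hΔ hν, growth_of_kappa hy hn hΔ,
      fun h1 h2 => ⟨ν, kappa_of_growth hy hn hΔ hν h1, h2⟩⟩⟩

end Pool.Agent.Results.MP_e23cd6_ag.PlurigeneraOfCoverings
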